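import Pool.Agent.helper83.LS.Spec

set_option autoImplicit false

/-!
# Project ls (MP_60c1a7_co): SX, a prefix in the order of the first coordinate
-/

namespace LSH

theorem SX_gen (f : Pt → ℝ) (S : Finset Pt) (hf : ∀ p ∈ S, ∀ q ∈ S, p ≠ q → f p ≠ f q) (k : ℕ)
    (hk : k ≤ S.card) : ∃ Q : Finset Pt, Q ⊆ S ∧ Q.card = k ∧ ∀ q ∈ Q, ∀ s ∈ S \ Q, f q < f s := by
  classical
  induction k with
  | zero => exact ⟨∅, Finset.empty_subset _, rfl, fun q hq => absurd hq (Finset.notMem_empty q)⟩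
  | succ k ih =>
    obtain ⟨Q, hQS, hQk, hQ⟩ := ih (by omega)
    have hne : (S \ Q).Nonempty := by
      rw [← Finset.card_pos, Finset.card_sdiff_of_subset hQS]
      omega
    obtain ⟨m, hm, hmin⟩ := Finset.exists_min_image (S \ Q) f hne
    have hmS : m ∈ S := (Finset.mem_sdiff.1 hm).1
    have hmQ : m ∉ Q := (Finset.mem_sdiff.1 hm).2
    refine ⟨insert m Q, Finset.insert_subset hmS hQS, ?_, ?_⟩
    · rw [Finset.card_insert_of_notMem hmQ, hQk]
    · intro q hq s hs
      rw [Finset.mem_sdiff, Finset.mem_insert, not_or] at hs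
      have hs' : s ∈ S \ Q := Finset.mem_sdiff.2 ⟨hs.1, hs.2.2⟩
      rcases Finset.mem_insert.1 hq with rfl | hq
      · exact lt_of_le_of_ne (hmin s hs') (hf q hmS s hs.1 (Ne.symm hs.2.1))
      · exact hQ q hq s hs'

theorem SX : SX_stmt := by
  intro S k hG hk
  exact SX_gen (fun p => p.1) S (fun p hp q hq hpq => (hG p hp q hq hpq).1) k hk

end LSH
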