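import Pool.Agent.helper83.LS.Spec2
import Pool.Agent.helper82.LS.KL

set_option autoImplicit false

/-! # Project ls, KLP: the shape of the rooted tree, path version (helper92) -/

namespace LSH

theorem KLP_edg {V : Type} (t : LT V) (u v : V) (h : (u, v) ∈ t.edg) :
    u ∈ t.verts ∧ v ∈ t.verts := by
  induction t with
  | leaf w => simp [LT.edg] at h
  | un w t ih =>
    simp only [LT.edg, List.mem_cons, Prod.mk.injEq] at h
    simp only [LT.verts, List.mem_cons]
    rcases h with ⟨h1, h2⟩ | h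
    · exact ⟨Or.inl h1, Or.inr (h2 ▸ KL_root_mem t)⟩
    · exact ⟨Or.inr (ih h).1, Or.inr (ih h).2⟩
  | br w a b iha ihb =>
    simp only [LT.edg, List.mem_append, List.mem_cons, Prod.mk.injEq] at h
    simp only [LT.verts, List.mem_cons, List.mem_append]
    rcases h with (⟨h1, h2⟩ | h) | (⟨h1, h2⟩ | h)
    · exact ⟨Or.inl h1, Or.inr (Or.inl (h2 ▸ KL_root_mem a))⟩
    · exact ⟨Or.inr (Or.inl (iha h).1), Or.inr (Or.inl (iha h).2)⟩
    · exact ⟨Or.inl h1, Or.inr (Or.inr (h2 ▸ KL_root_mem b))⟩
    · exact ⟨Or.inr (Or.inr (ihb h).1), Or.inr (Or.inr (ihb h).2)⟩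

/-- as `KL_dbl`, with the vertex in the subtree -/
theorem KLP_dbl {n : ℕ} (T : SimpleGraph (Fin n)) (r u : Fin n)
    (hdeg : ∀ v, (T.neighborSet v).ncard ≤ 3)
    (htr : ∀ u v w, T.Adj v w → T.dist r w = T.dist r v + 1 → T.dist r v = T.dist r u + T.dist u v →
      T.dist r w = T.dist r u + T.dist u w) (s : LT (Fin n)) :
    ∀ k : ℕ, s.verts.Nodup → (∀ e ∈ s.edg, T.Adj e.1 e.2 ∧ T.dist r e.2 = T.dist r e.1 + 1) →
      dbl k s.shape → T.dist r s.root = T.dist r u + T.dist u s.root → T.dist r u < T.dist r s.root →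
      T.dist u s.root + k ≤ 4 →
      ∃ w ∈ s.verts, T.dist r w = T.dist r u + T.dist u w ∧ T.dist r u < T.dist r w ∧
        T.dist u w ≤ 4 ∧
        2 ≤ {x | T.Adj w x ∧ T.dist r x = T.dist r w + 1 ∧ (T.neighborSet x).ncard = 3}.ncard := by
  induction s with
  | leaf v =>
    intro k _ _ hd
    exact absurd hd (by cases k <;> simp [LT.shape, dbl])
  | un v t ih =>
    intro k hn he hd h1 h2 h3
    cases k with
    | zero => exact absurd hd (by simp [LT.shape, dbl])
    | succ k =>
      have hd' : dbl k t.shape := hd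
      have hvt := he (v, t.root) (by simp [LT.edg])
      simp only at hvt
      simp only [LT.root] at h1 h2 h3
      have h4 := htr u v t.root hvt.1 hvt.2 h1
      have hn' : t.verts.Nodup := by
        simp only [LT.verts, List.nodup_cons] at hn
        exact hn.2
      obtain ⟨w, hw, hw'⟩ := ih k hn'
        (fun e h => he e (by simp only [LT.edg, List.mem_cons]; exact Or.inr h)) hd' h4
        (by omega) (by omega)
      exact ⟨w, by simp only [LT.verts, List.mem_cons]; exact Or.inr hw, hw'⟩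
  | br v a b =>
    intro k hn he hd h1 h2 h3
    have hd' : a.shape.isBr ∧ b.shape.isBr := by
      cases k <;> exact hd
    have hva := he (v, a.root) (by simp [LT.edg])
    have hvb := he (v, b.root) (by simp [LT.edg])
    simp only at hva hvb
    simp only [LT.root] at h1 h2 h3
    simp only [LT.verts, List.nodup_cons, List.nodup_append] at hn
    have hab : a.root ≠ b.root := hn.2.2.2 _ (KL_root_mem a) _ (KL_root_mem b)
    have hda := KL_deg T hdeg r v a hn.2.1 (fun e h => he e (by
      simp only [LT.edg, List.mem_append, List.mem_cons]; exact Or.inl (Or.inr h))) hva hd'.1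
    have hdb := KL_deg T hdeg r v b hn.2.2.1 (fun e h => he e (by
      simp only [LT.edg, List.mem_append, List.mem_cons]; exact Or.inr (Or.inr h))) hvb hd'.2
    exact ⟨v, by simp [LT.verts], h1, h2, by omega,
      KL_two hab ⟨hva.1, hva.2, hda⟩ ⟨hvb.1, hvb.2, hdb⟩⟩

/-- closure of the vertex set under children -/
def KLP_Q {n : ℕ} (T : SimpleGraph (Fin n)) (r : Fin n) (t : LT (Fin n)) : Prop :=
  ∀ u v, u ∈ t.verts → T.Adj u v → T.dist r v = T.dist r u + 1 → (u, v) ∈ t.edg

theorem KLP_Q_un {n : ℕ} {T : SimpleGraph (Fin n)} {r w : Fin n} {t : LT (Fin n)}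
    (hn : (LT.un w t).verts.Nodup) (h : KLP_Q T r (LT.un w t)) : KLP_Q T r t := by
  intro u v hu h1 h2
  have h3 := h u v (by simp only [LT.verts, List.mem_cons]; exact Or.inr hu) h1 h2
  simp only [LT.verts, List.nodup_cons] at hn
  simp only [LT.edg, List.mem_cons, Prod.mk.injEq] at h3
  rcases h3 with h3 | h3
  · exact absurd (h3.1 ▸ hu) hn.1
  · exact h3

theorem KLP_Q_br {n : ℕ} {T : SimpleGraph (Fin n)} {r w : Fin n} {a b : LT (Fin n)}
    (hn : (LT.br w a b).verts.Nodup) (h : KLP_Q T r (LT.br w a b)) :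
    KLP_Q T r a ∧ KLP_Q T r b := by
  simp only [LT.verts, List.nodup_cons, List.nodup_append, List.mem_append, not_or] at hn
  constructor
  · intro u v hu h1 h2
    have h3 := h u v (by simp only [LT.verts, List.mem_cons, List.mem_append]; exact Or.inr (Or.inl hu))
      h1 h2
    simp only [LT.edg, List.mem_append, List.mem_cons, Prod.mk.injEq] at h3
    rcases h3 with (⟨h3, _⟩ | h3) | (⟨h3, _⟩ | h3)
    · exact absurd (h3 ▸ hu) hn.1.1
    · exact h3
    · exact absurd (h3 ▸ hu) hn.1.1
    · exact absurd rfl (hn.2.2.2 u hu u (KLP_edg b u v h3).1)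
  · intro u v hu h1 h2
    have h3 := h u v (by simp only [LT.verts, List.mem_cons, List.mem_append]; exact Or.inr (Or.inr hu))
      h1 h2
    simp only [LT.edg, List.mem_append, List.mem_cons, Prod.mk.injEq] at h3
    rcases h3 with (⟨h3, _⟩ | h3) | (⟨h3, _⟩ | h3)
    · exact absurd (h3 ▸ hu) hn.1.2
    · exact absurd rfl (hn.2.2.2 u (KLP_edg a u v h3).1 u hu)
    · exact absurd (h3 ▸ hu) hn.1.2
    · exact h3

theorem KLP_desc (hTR : TR_stmt) {n : ℕ} {T : SimpleGraph (Fin n)} (hT : T.IsTree) {r : Fin n}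
    {t : LT (Fin n)} (hQ : KLP_Q T r t) {w : Fin n} (hw : w ∈ t.verts) :
    ∀ (k : ℕ) (x : Fin n), T.dist w x = k → T.dist r x = T.dist r w + T.dist w x →
      x ∈ t.verts := by
  intro k
  induction k with
  | zero =>
    intro x h1 _
    have h2 : w = x := by
      rcases eq_or_ne w x with h | h
      · exact h
      · exact absurd h1 (Nat.pos_iff_ne_zero.1 (hT.connected.pos_dist_of_ne h))
    exact h2 ▸ hw
  | succ k ih =>
    intro x h1 h2
    have hne : x ≠ w := by
      rintro rfl
      rw [SimpleGraph.dist_self] at h1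
      omega
    obtain ⟨_, hpar, _⟩ := hTR n T hT w
    obtain ⟨u, ⟨hu1, hu2⟩, _⟩ := hpar x hne
    have h3 : T.dist r u ≤ T.dist r w + T.dist w u := hT.connected.dist_triangle
    have h4 : T.dist r x ≤ T.dist r u + T.dist u x := hT.connected.dist_triangle
    have h5 : T.dist u x = 1 := SimpleGraph.dist_eq_one_iff_adj.2 hu1
    have h6 : T.dist r u = T.dist r w + T.dist w u := by omega
    have h7 := ih u (by omega) h6
    exact (KLP_edg t u x (hQ u x h7 hu1 (by omega))).2

theorem KLP (hTR : TR_stmt) : KLP_stmt := by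
  intro n T hT hdeg r s hB t _ hnd hall hedg
  obtain ⟨-, -, htr⟩ := hTR n T hT r
  have key : ∀ (v x : Fin n) (b : LT (Fin n)), b.verts.Nodup →
      (∀ e ∈ b.edg, T.Adj e.1 e.2 ∧ T.dist r e.2 = T.dist r e.1 + 1) → KLP_Q T r b →
      s ∉ b.verts → T.Adj v b.root ∧ T.dist r b.root = T.dist r v + 1 →
      T.Adj v x ∧ T.dist r x = T.dist r v + 1 → b.root ≠ x → ¬ dbl 3 b.shape := by
    intro v x b hn he hQ hs hvs hvx hsx hd
    have h0 : T.dist r v = T.dist r v + T.dist v v := by rw [SimpleGraph.dist_self, add_zero]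
    have h1 := htr v v b.root hvs.1 hvs.2 h0
    obtain ⟨w, hwb, hw1, hw2, hw3, hw4⟩ := KLP_dbl T r v hdeg htr b 3 hn he hd h1 (by omega)
      (by omega)
    rcases hB.2 w with h | h | h
    · exact hs (KLP_desc hTR hT hQ hwb _ s rfl h)
    · omega
    · have hvw : v ≠ w := by
        intro h'
        rw [h'] at hw2
        exact lt_irrefl _ hw2
      have h5 := h v hvw hw1 hw3
      have h6 := KL_two (s := {w | T.Adj v w ∧ T.dist r w = T.dist r v + 1}) hsx hvs hvx
      omega
  have off : ∀ t : LT (Fin n), t.verts.Nodup →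
      (∀ e ∈ t.edg, T.Adj e.1 e.2 ∧ T.dist r e.2 = T.dist r e.1 + 1) → KLP_Q T r t →
      s ∉ t.verts → Cl t.shape := by
    intro t
    induction t with
    | leaf v => intro _ _ _ _; trivial
    | un v t ih =>
      intro hn he hQ hs
      have hQ' := KLP_Q_un hn hQ
      simp only [LT.verts, List.nodup_cons] at hn
      simp only [LT.verts, List.mem_cons, not_or] at hs
      exact ih hn.2 (fun e h => he e (by simp only [LT.edg, List.mem_cons]; exact Or.inr h)) hQ' hs.2
    | br v a b iha ihb =>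
      intro hn he hQ hs
      have hQ' := KLP_Q_br hn hQ
      have hva := he (v, a.root) (by simp [LT.edg])
      have hvb := he (v, b.root) (by simp [LT.edg])
      simp only at hva hvb
      simp only [LT.verts, List.nodup_cons, List.nodup_append] at hn
      simp only [LT.verts, List.mem_cons, List.mem_append, not_or] at hs
      have hab : a.root ≠ b.root := hn.2.2.2 _ (KL_root_mem a) _ (KL_root_mem b)
      have hea : ∀ e ∈ a.edg, T.Adj e.1 e.2 ∧ T.dist r e.2 = T.dist r e.1 + 1 := fun e h => he e (by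
        simp only [LT.edg, List.mem_append, List.mem_cons]; exact Or.inl (Or.inr h))
      have heb : ∀ e ∈ b.edg, T.Adj e.1 e.2 ∧ T.dist r e.2 = T.dist r e.1 + 1 := fun e h => he e (by
        simp only [LT.edg, List.mem_append, List.mem_cons]; exact Or.inr (Or.inr h))
      exact ⟨iha hn.2.1 hea hQ'.1 hs.2.1, ihb hn.2.2.1 heb hQ'.2 hs.2.2,
        key v b.root a hn.2.1 hea hQ'.1 hs.2.1 hva hvb hab,
        key v a.root b hn.2.2.1 heb hQ'.2 hs.2.2 hvb hva hab.symm⟩
  have main : ∀ t : LT (Fin n), t.verts.Nodup →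
      (∀ e ∈ t.edg, T.Adj e.1 e.2 ∧ T.dist r e.2 = T.dist r e.1 + 1) → KLP_Q T r t →
      s ∈ t.verts → ClP t.shape := by
    intro t
    induction t with
    | leaf v => intro _ _ _ _; exact ClP.base _ trivial
    | un v t ih =>
      intro hn he hQ hs
      have hQ' := KLP_Q_un hn hQ
      simp only [LT.verts, List.nodup_cons] at hn
      have het : ∀ e ∈ t.edg, T.Adj e.1 e.2 ∧ T.dist r e.2 = T.dist r e.1 + 1 := fun e h => he e (by
        simp only [LT.edg, List.mem_cons]; exact Or.inr h)
      by_cases hst : s ∈ t.verts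
      · exact ClP.un _ (ih hn.2 het hQ' hst)
      · exact ClP.un _ (ClP.base _ (off t hn.2 het hQ' hst))
    | br v a b iha ihb =>
      intro hn he hQ hs
      have hQ' := KLP_Q_br hn hQ
      have hva := he (v, a.root) (by simp [LT.edg])
      have hvb := he (v, b.root) (by simp [LT.edg])
      simp only at hva hvb
      simp only [LT.verts, List.nodup_cons, List.nodup_append] at hn
      have hab : a.root ≠ b.root := hn.2.2.2 _ (KL_root_mem a) _ (KL_root_mem b)
      have hea : ∀ e ∈ a.edg, T.Adj e.1 e.2 ∧ T.dist r e.2 = T.dist r e.1 + 1 := fun e h => he e (by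
        simp only [LT.edg, List.mem_append, List.mem_cons]; exact Or.inl (Or.inr h))
      have heb : ∀ e ∈ b.edg, T.Adj e.1 e.2 ∧ T.dist r e.2 = T.dist r e.1 + 1 := fun e h => he e (by
        simp only [LT.edg, List.mem_append, List.mem_cons]; exact Or.inr (Or.inr h))
      by_cases hsa : s ∈ a.verts
      · have hsb : s ∉ b.verts := fun h => hn.2.2.2 s hsa s h rfl
        exact ClP.brl _ _ (iha hn.2.1 hea hQ'.1 hsa) (off b hn.2.2.1 heb hQ'.2 hsb)
          (key v a.root b hn.2.2.1 heb hQ'.2 hsb hvb hva hab.symm)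
      · have hca := off a hn.2.1 hea hQ'.1 hsa
        have hda := key v b.root a hn.2.1 hea hQ'.1 hsa hva hvb hab
        by_cases hsb : s ∈ b.verts
        · exact ClP.brr _ _ hca hda (ihb hn.2.2.1 heb hQ'.2 hsb)
        · exact ClP.brr _ _ hca hda (ClP.base _ (off b hn.2.2.1 heb hQ'.2 hsb))
  refine main t hnd (fun e h => (hedg e.1 e.2).1 h) ?_ (hall s)
  intro u v _ h1 h2
  exact (hedg u v).2 ⟨h1, h2⟩

end LSH
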