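import Pool.Agent.helper83.LS.Spec3

set_option autoImplicit false

/-! # Project ls, RRT: re-rooting (helper92) -/

namespace LSH

/-- the edge `v w` separates `e` from `r` -/
theorem RRT_sep (hTR : TR_stmt) {n : ℕ} {T : SimpleGraph (Fin n)} (hT : T.IsTree) {r v w : Fin n}
    (hvw : T.Adj v w) (hr : T.dist r v = T.dist r w + 1) :
    ∀ (k : ℕ) (e : Fin n), T.dist v e = k → T.dist e w = T.dist e v + 1 →
      T.dist r e = T.dist r v + T.dist v e := by
  have hcon : T.Connected := hT.connected
  have hR := hTR n T hT r
  have hV := hTR n T hT v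
  intro k
  induction k using Nat.strong_induction_on with
  | _ k ih =>
    intro e hk he
    by_cases hev : e = v
    · subst hev
      simp
    · obtain ⟨e', ⟨ha, hd⟩, -⟩ := hV.2.1 e hev
      have hcl : ∀ a b : Fin n, T.Adj a b → T.dist v b = T.dist v a + 1 →
          T.dist b w = T.dist b v + 1 → T.dist a w = T.dist a v + 1 := by
        intro a b hab h1 h2
        have t1 : T.dist b w ≤ T.dist b a + T.dist a w := hcon.dist_triangle
        have t2 : T.dist a w ≤ T.dist a v + T.dist v w := hcon.dist_triangle
        have t3 : T.dist b a = 1 := SimpleGraph.dist_eq_one_iff_adj.mpr hab.symm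
        have t4 : T.dist v w = 1 := SimpleGraph.dist_eq_one_iff_adj.mpr hvw
        have t5 : T.dist v b = T.dist b v := SimpleGraph.dist_comm
        have t6 : T.dist v a = T.dist a v := SimpleGraph.dist_comm
        omega
      have he' := hcl e' e ha hd he
      have ih1 := ih (T.dist v e') (by omega) e' rfl he'
      rcases hR.1 e' e ha with h | h
      · omega
      · exfalso
        by_cases hev' : e' = v
        · subst hev'
          have hne : e' ≠ r := by
            intro h0
            rw [← h0] at hr
            simp at hr
          have hu := (hR.2.1 e' hne).unique ⟨ha.symm, h⟩ ⟨hvw.symm, hr⟩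
          rw [hu] at he
          simp at he
        · obtain ⟨e'', ⟨ha', hd'⟩, -⟩ := hV.2.1 e' hev'
          have he'' := hcl e'' e' ha' hd' he'
          have ih2 := ih (T.dist v e'') (by omega) e'' rfl he''
          have hne : e' ≠ r := by
            intro h0
            rw [h0] at h
            simp at h
          have hu := (hR.2.1 e' hne).unique ⟨ha.symm, h⟩ ⟨ha', by omega⟩
          rw [hu] at hd
          omega

theorem RRT (hTR : TR_stmt) : RRT_stmt := by
  intro n T hT r s hB
  have hcon : T.Connected := hT.connected
  have hS := hTR n T hT s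
  obtain ⟨e, he, hmax⟩ : ∃ e, T.dist e s = T.dist e r + T.dist r s ∧
      ∀ x, T.dist x s = T.dist x r + T.dist r s → T.dist x s ≤ T.dist e s := by
    obtain ⟨e, he, hm⟩ := Set.exists_max_image {x | T.dist x s = T.dist x r + T.dist r s}
      (fun x => T.dist x s) (Set.toFinite _) ⟨r, by simp⟩
    exact ⟨e, he, fun x hx => hm x hx⟩
  have hes : T.dist e s = T.dist s e := SimpleGraph.dist_comm
  refine ⟨e, ?_, ?_⟩
  · rw [Set.ncard_le_one_iff]
    have key : ∀ x, T.Adj e x → T.dist s e = T.dist s x + 1 := by
      intro x hx
      rcases hS.1 e x hx with h | h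
      · exfalso
        have t1 : T.dist x s ≤ T.dist x r + T.dist r s := hcon.dist_triangle
        have t2 : T.dist x r ≤ T.dist x e + T.dist e r := hcon.dist_triangle
        have t3 : T.dist x e = 1 := SimpleGraph.dist_eq_one_iff_adj.mpr hx.symm
        have t4 : T.dist x s = T.dist s x := SimpleGraph.dist_comm
        have := hmax x (by omega)
        omega
      · exact h
    intro x y hx hy
    have hx' : T.Adj e x := hx
    have hy' : T.Adj e y := hy
    have hne : e ≠ s := by
      intro h0
      have := key x hx'
      rw [h0] at this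
      simp at this
    exact (hS.2.1 e hne).unique ⟨hx'.symm, key x hx'⟩ ⟨hy'.symm, key y hy'⟩
  · intro v hv
    have t1 : T.dist e s ≤ T.dist e v + T.dist v s := hcon.dist_triangle
    have hrv : ¬ onPath T r s v := by
      intro h
      have h' : T.dist r s = T.dist r v + T.dist v s := h
      have t2 : T.dist e v ≤ T.dist e r + T.dist r v := hcon.dist_triangle
      exact hv (show T.dist e s = T.dist e v + T.dist v s by omega)
    refine le_trans (Set.ncard_le_ncard ?_ (Set.toFinite _)) (hB v hrv)
    rintro w ⟨hvw, hd, hdeg⟩
    refine ⟨hvw, ?_, hdeg⟩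
    rcases (hTR n T hT r).1 v w hvw with h | h
    · exact h
    · exfalso
      have hk := RRT_sep hTR hT hvw h (T.dist v e) e rfl hd
      have t3 : T.dist v s ≤ T.dist v r + T.dist r s := hcon.dist_triangle
      have t4 : T.dist v r = T.dist r v := SimpleGraph.dist_comm
      have t5 : T.dist v e = T.dist e v := SimpleGraph.dist_comm
      have t6 : T.dist r e = T.dist e r := SimpleGraph.dist_comm
      exact hv (show T.dist e s = T.dist e v + T.dist v s by omega)

end LSH
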